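import Pool.Agent.MT100D.Defs
import Pool.Agent.MTL.Defs
import Pool.Agent.MTN.Defs

/-! Propagation of the Mumford-Tate conjecture from one fibre of a one parameter family: branches of the
fundamental matrix at the regular points, the theorem of the fixed part, the geometric Galois group. -/

set_option autoImplicit false

namespace Pool.Agent.MTPN

open Matrix Polynomial Pool.Agent.MT100 Pool.Agent.MT100G Pool.Agent.MT100A Pool.Agent.MT100D
  Pool.Agent.Helper78_MT Pool.Agent.MTL

variable {d : Type} [Fintype d] [DecidableEq d]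

/-! ### The fibres at the regular points -/

/-- `Z` is the value at the regular point `x` of a branch of the fundamental matrix `F.Y` (analytic
continuation along a chain of discs without singular points). -/
def Branch (F : Family d) (x : ℂ) (Z : Matrix d d ℂ) : Prop :=
  ∃ (r : ℝ) (Y0 : ℂ → Matrix d d ℂ), Z = Y0 x ∧
    ∀ᶠ c : ℝ in Filter.atTop, Cnt F.q F.B Set.univ ((c : ℂ), 1, F.Y) (x, r, Y0)

/-- The Hodge filtration of `V` is given by the periods, for the value `Z` of the fundamental matrix: the
forms with index `a` and `p ≤ lev a` span `Fᵖ`. -/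
def FilAt (lev : d → ℕ) (P Z : Matrix d d ℂ) (V : ℕ → Submodule ℂ (d → ℂ)) : Prop :=
  ∀ p : ℕ, (⨆ p' ∈ Set.Ici p, V p') = Submodule.span ℂ {y | ∃ a : d, p ≤ lev a ∧ y = P *ᵥ Z a}

/-- The rational tensor `t` of degree `k` is a Hodge tensor, for the value `Z` of the fundamental
matrix: it vanishes on the forms with indices `a 0, ..., a (k-1)` if the sum of the levels is larger
than `k w / 2`. -/
def HodgeZ (lev : d → ℕ) (P : Matrix d d ℂ) (w : ℕ) (Z : Matrix d d ℂ) {k : ℕ}
    (t : (Fin k → d) → ℚ) : Prop :=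
  ∀ a : Fin k → d, k * w < 2 * ∑ j, lev (a j) → ∑ β, (t β : ℂ) * ∏ j, (P *ᵥ Z (a j)) (β j) = 0

/-- The theorem of the fixed part (Griffiths, Deligne, Schmid): if a rational tensor which is invariant
under the unipotent one parameter subgroups of the Zariski closure of the monodromy group is a Hodge
tensor at one point, it is a Hodge tensor at every point (for all branches at all regular points). -/
def FixedPartB (F : Family d) (lev : d → ℕ) (P : Matrix d d ℂ) (w : ℕ) : Prop :=
  ∀ (k : ℕ) (t : (Fin k → d) → ℚ),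
    (∀ u ∈ Uni (F.Mo P), tA (fun β => (t β : ℂ)) u = fun β => (t β : ℂ)) →
    ∀ (x y : ℂ) (Z Z' : Matrix d d ℂ), Branch F x Z → Branch F y Z' →
      HodgeZ lev P w Z t → HodgeZ lev P w Z' t

/-! ### Galois groups -/

/-- the geometric Galois group: the elements of the Galois group of `ℚ(t)` which fix the algebraic
numbers -/
def Ggeo : Subgroup GT where
  carrier := {σ | ∀ x : Om, IsAlgebraic ℚ x → σ x = x}
  mul_mem' := by
    intro σ τ hσ hτ x hx
    show σ (τ x) = x
    rw [hτ x hx, hσ x hx]
  one_mem' := fun x _ => rfl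
  inv_mem' := by
    intro σ hσ x hx
    have h := hσ x hx
    show σ.symm x = x
    rw [AlgEquiv.symm_apply_eq, h]

/-- The geometric part of the representation `ρ` is compatible with the monodromy group `M`, for an
embedding `ι` of `ℚ_ℓ` in `ℂ`:
(1) for every subgroup of finite index of the geometric Galois group, the Zariski closure of its image
contains the unipotent one parameter subgroups of the Zariski closure of `M`;
(2) the image of some subgroup of finite index of the geometric Galois group is contained in the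
algebraic group over `ℚ` generated by these unipotents. -/
def GeoC (M : Set (Matrix d d ℂ)) {ℓ : ℕ} [Fact ℓ.Prime] (ι : ℚ_[ℓ] →+* ℂ)
    (ρ : GT →* GL d ℚ_[ℓ]) : Prop :=
  (∀ Γ' : Subgroup Ggeo, Γ'.FiniteIndex →
    ∀ f : MvPolynomial (d × d) ℚ_[ℓ],
      (∀ γ ∈ Γ', pev (ρ (γ : GT) : Matrix d d ℚ_[ℓ]) f = 0) →
      ∀ u ∈ Uni M, pev u (MvPolynomial.map ι f) = 0) ∧
  ∃ Γ' : Subgroup Ggeo, Γ'.FiniteIndex ∧ ∀ γ ∈ Γ',
    ∀ I : Set (MvPolynomial (d × d) ℚ), IsAlgSubgroup I → (∀ u ∈ Uni M, u ∈ zeros I ℂ) →
      (ρ (γ : GT) : Matrix d d ℚ_[ℓ]) ∈ zeros I ℚ_[ℓ]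

/-! ### Algebraic groups over `ℚ_ℓ` -/

section alg
variable {L : Type} [Field L]

/-- The complex points, for an embedding `ι` of `L` in `ℂ`, of the closed subset of `GL` defined by a set
`J` of polynomials with coefficients in `L`. -/
def zerosC (ι : L →+* ℂ) (J : Set (MvPolynomial (d × d) L)) : Set (Matrix d d ℂ) :=
  {X | IsUnit X.det ∧ ∀ p ∈ J, pev X (MvPolynomial.map ι p) = 0}

/-- The `K`-points of the closed subset of `GL` defined by a set `J` of polynomials with coefficients in
`L`. -/
def zerosL (J : Set (MvPolynomial (d × d) L)) (K : Type*) [Field K] [Algebra L K] :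
    Set (Matrix d d K) :=
  {X | IsUnit X.det ∧ ∀ p ∈ J, pev X p = 0}

/-- The closed subset of `GL` defined by `J` is an algebraic subgroup over `L`. -/
def IsAlgSubL (ι : L →+* ℂ) (J : Set (MvPolynomial (d × d) L)) : Prop :=
  (1 : Matrix d d ℂ) ∈ zerosC ι J ∧
    (∀ X ∈ zerosC ι J, ∀ Y ∈ zerosC ι J, X * Y ∈ zerosC ι J) ∧
      ∀ X ∈ zerosC ι J, X⁻¹ ∈ zerosC ι J

/-- The `K`-points of the smallest algebraic subgroup over `L` of `GL` which contains the connected
algebraic monodromy group of the representation `ρ0` and the unipotent one parameter subgroups of the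
Zariski closure of `M`. -/
def GenL (M : Set (Matrix d d ℂ)) (ι : L →+* ℂ) {Γ : Type} [Group Γ] (ρ0 : Γ →* GL d L) (K : Type*)
    [Field K] [Algebra L K] : Set (Matrix d d K) :=
  {x | ∀ J : Set (MvPolynomial (d × d) L), IsAlgSubL ι J → monodromy ρ0 L ⊆ zerosL J L →
    (∀ u ∈ Uni M, u ∈ zerosC ι J) → x ∈ zerosL J K}

end alg

end Pool.Agent.MTPN
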