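import Pool.Agent.MTPN.Stmts
import Pool.Agent.MTN.Stmts2

/-! MTPN: the final statement. -/

set_option autoImplicit false

namespace Pool.Agent.MTPN

open Matrix Polynomial NumberField Pool.Agent.MT100 Pool.Agent.MT100G Pool.Agent.MT100A
  Pool.Agent.MT100D Pool.Agent.Helper78_MT Pool.Agent.MTL Pool.Agent.MTN Pool.Agent.HIK

universe u

variable {d : Type} [Fintype d] [DecidableEq d]

/-- `V` is a polarised Hodge structure of weight `w` on the flat sections with a polarisation which is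
invariant under the monodromy, and its Hodge filtration is given by the periods at the regular point
`y`, for some branch of the fundamental matrix. -/
def FibreB (F : Family d) (lev : d → ℕ) (P : Matrix d d ℂ) (w : ℕ) (y : ℂ)
    (V : ℕ → Submodule ℂ (d → ℂ)) : Prop :=
  ∃ (Z : Matrix d d ℂ) (E : Matrix d d ℚ), Branch F y Z ∧ PolHodge w E V ∧ F.InvM P E ∧
    FilAt lev P Z V

/-- The final statement. -/
def PropStmt : Prop :=
  ∀ (d : Type) [Fintype d] [DecidableEq d] (F : Family d) (w : ℕ) (lev : d → ℕ), 1 ≤ w →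
    ∃ (C : ℕ) (R1 : ℕ → ℕ → ℕ → ℝ), ∀ P : Matrix d d ℂ, IsUnit P.det → F.IntM P →
      FixedPartB F lev P w →
      ∃ S : Set ℂ,
        (∀ (m A K : ℕ), ∀ x ∈ Pts m A, R1 m A K ≤ ‖x‖ →
          Nat.card {κ : ℕ // κ < K ∧ x - κ ∈ S} ≤ C) ∧
        (∀ (k : Type) [Field k] [NumberField k] (σ : k →+* ℂ), DZ k {a : 𝓞 k | σ a ∈ S}) ∧
        (∀ x : ℂ, x ∉ S → ∀ (E : Matrix d d ℚ) (V : ℕ → Submodule ℂ (d → ℂ)),
          FibreC F lev P w x E V →
          ∀ (y : ℂ) (V0 : ℕ → Submodule ℂ (d → ℂ)), FibreB F lev P w y V0 →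
          ∀ (K : Type u) [Field K] [CharZero K], mtGroup w V K = GenM (F.Mo P) w V0 K) ∧
        ∀ ρ : (ℓ : ℕ) → [Fact ℓ.Prime] → GT →* GL d ℚ_[ℓ],
          (∀ (ℓ : ℕ) [Fact ℓ.Prime], Continuous (ρ ℓ)) →
          ∀ (k : Type) [Field k] [NumberField k] (σ : k →+* ℂ),
            ∃ (T : Set (𝓞 k)) (N : ℕ → ℕ), DZ k T ∧
              ∀ (ℓ : ℕ) [Fact ℓ.Prime] (ι : ℚ_[ℓ] →+* ℂ), GeoC (F.Mo P) ι (ρ ℓ) →
              ∀ (a0 : QB) (ρ0 : Stab a0 →* GL d ℚ_[ℓ]), SpecializesAt (ρ ℓ) a0 ρ0 →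
              ∀ a : 𝓞 k, a ∉ T → (N ℓ : ℝ) ≤ house (a : k) →
              ∀ (ψ : k →+* QB) (ρa : Stab (ψ a) →* GL d ℚ_[ℓ]), SpecializesAt (ρ ℓ) (ψ a) ρa →
                (∀ (K : Type u) [Field K] [CharZero K] [Algebra ℚ_[ℓ] K],
                  monodromy ρa K = GenL (F.Mo P) ι ρ0 K) ∧
                ∀ (ε : QB →+* ℂ) (V0 : ℕ → Submodule ℂ (d → ℂ)), FibreB F lev P w (ε a0) V0 →
                  (∀ (K : Type) [Field K] [CharZero K] [Algebra ℚ_[ℓ] K],
                    monodromy ρ0 K = mtGroup w V0 K) →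
                  ∀ (E : Matrix d d ℚ) (V : ℕ → Submodule ℂ (d → ℂ)),
                    FibreC F lev P w (σ a) E V →
                    ∀ (K : Type u) [Field K] [CharZero K] [Algebra ℚ_[ℓ] K],
                      monodromy ρa K = mtGroup w V K

end Pool.Agent.MTPN
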