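import Pool.Agent.MTPN.Final
import Pool.Agent.Helper35_HIK.Srb

/-! MTPN: the final statement for families over curves over number fields. -/

set_option autoImplicit false

namespace Pool.Agent.MTPN

open Matrix Polynomial NumberField Pool.Agent.MT100 Pool.Agent.MT100G Pool.Agent.MT100A
  Pool.Agent.MT100D Pool.Agent.Helper78_MT Pool.Agent.MTL Pool.Agent.MTN Pool.Agent.HIK

universe u

/-! ### Direct summands -/

section blocks
variable {d e : Type} [Fintype d] [DecidableEq d] [Fintype e] [DecidableEq e]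

/-- the elements of `U` respect the decomposition -/
def BlkD (U : Set (Matrix (d ⊕ e) (d ⊕ e) ℂ)) : Prop :=
  ∀ u ∈ U, ∃ u₁ u₂, u = fromBlocks u₁ 0 0 u₂

/-- the restrictions to the first summand of the elements of `U` -/
def Fst (U : Set (Matrix (d ⊕ e) (d ⊕ e) ℂ)) : Set (Matrix d d ℂ) :=
  {u | ∃ u', fromBlocks u 0 0 u' ∈ U}

/-- the Hodge structure `V` is the direct sum of `W` and another one -/
def Sum1 (V : ℕ → Submodule ℂ (d ⊕ e → ℂ)) (W : ℕ → Submodule ℂ (d → ℂ)) : Prop :=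
  ∃ W' : ℕ → Submodule ℂ (e → ℂ), ∀ (p : ℕ) (v : d ⊕ e → ℂ),
    v ∈ V p ↔ (fun i => v (Sum.inl i)) ∈ W p ∧ (fun i => v (Sum.inr i)) ∈ W' p

end blocks

section gen
variable {d : Type} [Fintype d] [DecidableEq d]

/-- The `K`-points of the smallest algebraic subgroup over `ℚ` of `GL` which contains `U` and the
Deligne torus of `W`. -/
def GenU (U : Set (Matrix d d ℂ)) (w : ℕ) (W : ℕ → Submodule ℂ (d → ℂ)) (K : Type*) [Field K]
    [CharZero K] : Set (Matrix d d K) :=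
  {x | ∀ I : Set (MvPolynomial (d × d) ℚ), IsAlgSubgroup I → hodgeTorus w W ⊆ zeros I ℂ →
    U ⊆ zeros I ℂ → x ∈ zeros I K}

/-- The `K`-points of the smallest algebraic subgroup over `L` of `GL` which contains `U` and the
connected algebraic monodromy group of the representation `ρ0`. -/
def GenR {L : Type} [Field L] (U : Set (Matrix d d ℂ)) (ι : L →+* ℂ) {Γ : Type} [Group Γ]
    (ρ0 : Γ →* GL d L) (K : Type*) [Field K] [Algebra L K] : Set (Matrix d d K) :=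
  {x | ∀ J : Set (MvPolynomial (d × d) L), IsAlgSubL ι J → monodromy ρ0 L ⊆ zerosL J L →
    U ⊆ zerosC ι J → x ∈ zerosL J K}

/-- The restriction of the representation `ρ` of the Galois group `H` of the function field to the
geometric Galois group is compatible with `U`, for an embedding `ι` of `ℚ_ℓ` in `ℂ`:
(1) for every subgroup of finite index of the geometric Galois group, the Zariski closure of its image
contains `U`;
(2) the image of some subgroup of finite index of the geometric Galois group is contained in the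
algebraic group over `ℚ` generated by `U`. -/
def GeoU (U : Set (Matrix d d ℂ)) (H : Subgroup GT) {ℓ : ℕ} [Fact ℓ.Prime] (ι : ℚ_[ℓ] →+* ℂ)
    (ρ : H →* GL d ℚ_[ℓ]) : Prop :=
  (∀ Γ' : Subgroup H, (Γ'.subgroupOf (Ggeo.subgroupOf H)).FiniteIndex → Γ' ≤ Ggeo.subgroupOf H →
    ∀ f : MvPolynomial (d × d) ℚ_[ℓ], (∀ γ ∈ Γ', pev (ρ γ : Matrix d d ℚ_[ℓ]) f = 0) →
      ∀ u ∈ U, pev u (MvPolynomial.map ι f) = 0) ∧
  ∃ Γ' : Subgroup H, (Γ'.subgroupOf (Ggeo.subgroupOf H)).FiniteIndex ∧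
    Γ' ≤ Ggeo.subgroupOf H ∧ ∀ γ ∈ Γ', ∀ I : Set (MvPolynomial (d × d) ℚ), IsAlgSubgroup I →
      U ⊆ zeros I ℂ → (ρ γ : Matrix d d ℚ_[ℓ]) ∈ zeros I ℚ_[ℓ]

end gen

section fib
variable {d e : Type} [Fintype d] [DecidableEq d] [Fintype e] [DecidableEq e]

/-- the fibre, at the complex point `x`, of the family over the curve (`|x|` large, principal
branch) -/
def FibX (F : Family (d ⊕ e)) (lev : d ⊕ e → ℕ) (P : Matrix (d ⊕ e) (d ⊕ e) ℂ) (w : ℕ) (x : ℂ)
    (W : ℕ → Submodule ℂ (d → ℂ)) : Prop :=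
  ∃ E V, FibreC F lev P w x E V ∧ Sum1 V W

/-- the fibre, at the regular complex point `y`, of the family over the curve, for some branch -/
def FibY (F : Family (d ⊕ e)) (lev : d ⊕ e → ℕ) (P : Matrix (d ⊕ e) (d ⊕ e) ℂ) (w : ℕ) (y : ℂ)
    (W : ℕ → Submodule ℂ (d → ℂ)) : Prop :=
  ∃ V, FibreB F lev P w y V ∧ Sum1 V W

end fib

/-- The final statement. -/
def PropCStmt : Prop :=
  ∀ (d e : Type) [Fintype d] [DecidableEq d] [Fintype e] [DecidableEq e] (F : Family (d ⊕ e))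
    (w : ℕ) (lev : d ⊕ e → ℕ), 1 ≤ w →
    ∃ (C : ℕ) (R1 : ℕ → ℕ → ℕ → ℝ), ∀ P : Matrix (d ⊕ e) (d ⊕ e) ℂ, IsUnit P.det → F.IntM P →
      FixedPartB F lev P w → BlkD (Uni (F.Mo P)) →
      ∃ S : Set ℂ,
        (∀ (m A K : ℕ), ∀ x ∈ Pts m A, R1 m A K ≤ ‖x‖ →
          Nat.card {κ : ℕ // κ < K ∧ x - κ ∈ S} ≤ C) ∧
        (∀ (k : Type) [Field k] [NumberField k] (σ : k →+* ℂ), DZ k {a : 𝓞 k | σ a ∈ S}) ∧
        (∀ x : ℂ, x ∉ S → ∀ W : ℕ → Submodule ℂ (d → ℂ), FibX F lev P w x W →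
          ∀ (y : ℂ) (W0 : ℕ → Submodule ℂ (d → ℂ)), FibY F lev P w y W0 →
          ∀ (K : Type u) [Field K] [CharZero K],
            mtGroup w W K = GenU (Fst (Uni (F.Mo P))) w W0 K) ∧
        ∀ H : Subgroup GT, IsOpen (H : Set GT) →
          ∀ ρ : (ℓ : ℕ) → [Fact ℓ.Prime] → H →* GL d ℚ_[ℓ],
          (∀ (ℓ : ℕ) [Fact ℓ.Prime], Continuous (ρ ℓ)) →
          ∀ (k : Type) [Field k] [NumberField k] (σ : k →+* ℂ),
            ∃ (T : Set (𝓞 k)) (N : ℕ → ℕ), DZ k T ∧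
              ∀ (ℓ : ℕ) [Fact ℓ.Prime] (ι : ℚ_[ℓ] →+* ℂ),
              GeoU (Fst (Uni (F.Mo P))) H ι (ρ ℓ) →
              ∀ (π0 : BB →+* QB) (ρ0 : StabH H π0 →* GL d ℚ_[ℓ]), HIK.SpecH H (ρ ℓ) π0 ρ0 →
              ∀ a : 𝓞 k, a ∉ T → (N ℓ : ℝ) ≤ house (a : k) →
              ∀ (ψ : k →+* QB) (π : BB →+* QB), π (algebraMap ℚ[X] BB X) = ψ a →
              ∀ ρa : StabH H π →* GL d ℚ_[ℓ], HIK.SpecH H (ρ ℓ) π ρa →
                (∀ (K : Type u) [Field K] [CharZero K] [Algebra ℚ_[ℓ] K],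
                  monodromy ρa K = GenR (Fst (Uni (F.Mo P))) ι ρ0 K) ∧
                ∀ (ε : QB →+* ℂ) (W0 : ℕ → Submodule ℂ (d → ℂ)),
                  FibY F lev P w (ε (π0 (algebraMap ℚ[X] BB X))) W0 →
                  (∀ (K : Type) [Field K] [CharZero K] [Algebra ℚ_[ℓ] K],
                    monodromy ρ0 K = mtGroup w W0 K) →
                  ∀ W : ℕ → Submodule ℂ (d → ℂ), FibX F lev P w (σ a) W →
                    ∀ (K : Type u) [Field K] [CharZero K] [Algebra ℚ_[ℓ] K],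
                      monodromy ρa K = mtGroup w W K

end Pool.Agent.MTPN
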