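import Pool.Agent.MTPN.FinalC

/-! MTPN: curves over the line, the final statement for families over curves. -/

set_option autoImplicit false

namespace Pool.Agent.MTPN

open Matrix Polynomial NumberField Pool.Agent.MT100 Pool.Agent.MT100G Pool.Agent.MT100A
  Pool.Agent.MT100D Pool.Agent.Helper78_MT Pool.Agent.MTL Pool.Agent.MTN

universe u

/-! ### Curves -/

/-- A curve over a number field with a nonconstant map `t` to the line, given by the Galois group `H` of
its function field, an open subgroup of the Galois group of `ℚ(t)`. -/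
structure Curve where
  H : Subgroup GT
  isOpen : IsOpen (H : Set GT)

/-- the Galois group of the function field of the curve -/
def Curve.G (S : Curve) : Type := S.H

noncomputable instance instGroupG (S : Curve) : Group S.G := inferInstanceAs (Group S.H)

noncomputable instance instTopG (S : Curve) : TopologicalSpace S.G :=
  inferInstanceAs (TopologicalSpace S.H)

/-- the elements of the Galois group of the curve as elements of the Galois group of `ℚ(t)` -/
noncomputable def Curve.el (S : Curve) (σ : S.G) : GT := Subtype.val (p := fun σ => σ ∈ S.H) σ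

/-- the geometric Galois group of the curve: the elements which fix the algebraic numbers -/
noncomputable def Curve.geo (S : Curve) : Subgroup S.G := Ggeo.subgroupOf S.H

/-- The places: homomorphisms from the integral closure of `ℚ[t]` in the algebraic closure of `ℚ(t)` to the
algebraic numbers.  A place gives a point of every curve. -/
def Place : Type := BB →+* AlgebraicClosure ℚ

/-- the value of the function `b` at the place `π` -/
noncomputable def Place.ev (π : Place) (b : BB) : AlgebraicClosure ℚ :=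
  DFunLike.coe (F := BB →+* AlgebraicClosure ℚ) π b

/-- the value of `t` at the place `π` -/
noncomputable def Place.t (π : Place) : AlgebraicClosure ℚ := π.ev (algebraMap ℚ[X] BB X)

/-- `σ` induces `τ` at the place `π` -/
def Place.Ind (π : Place) (σ : GT) (τ : GQ) : Prop := ∀ b : BB, π.ev (σ • b) = τ (π.ev b)

/-- The Galois group of the residue field of the point of the curve `S` given by the place `π`: it consists
of the `τ` induced by elements of the Galois group of `S`. -/
noncomputable def Curve.res (S : Curve) (π : Place) : Subgroup GQ :=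
  Subgroup.closure {τ | ∃ σ : S.G, π.Ind (S.el σ) τ}

/-- the same group as a type -/
def Curve.R (S : Curve) (π : Place) : Type := S.res π

noncomputable instance instGroupR (S : Curve) (π : Place) : Group (S.R π) :=
  inferInstanceAs (Group (S.res π))

/-- the elements of the Galois group of the residue field as elements of the Galois group of `ℚ` -/
noncomputable def Curve.elR (S : Curve) (π : Place) (τ : S.R π) : GQ := Subtype.val (p := fun τ => τ ∈ S.res π) τ

/-- The representation `ρs` of the Galois group of the residue field is the specialisation of the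
representation `ρ` of the Galois group of the curve. -/
def Curve.Spec (S : Curve) {G : Type} [Group G] (ρ : S.G →* G) (π : Place) (ρs : S.R π →* G) : Prop :=
  ∀ (σ : S.G) (τ : S.R π), π.Ind (S.el σ) (S.elR π τ) → ρs τ = ρ σ

section geo
variable {d : Type} [Fintype d] [DecidableEq d]

/-- The restriction of the representation `ρ` of the Galois group of the curve `S` to the geometric Galois
group is compatible with `U`, for an embedding `ι` of `ℚ_ℓ` in `ℂ`:
(1) for every subgroup of finite index of the geometric Galois group, the Zariski closure of its image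
contains `U`;
(2) the image of some subgroup of finite index of the geometric Galois group is contained in the
algebraic group over `ℚ` generated by `U`. -/
def Curve.Geo (S : Curve) (U : Set (Matrix d d ℂ)) {ℓ : ℕ} [Fact ℓ.Prime] (ι : ℚ_[ℓ] →+* ℂ)
    (ρ : S.G →* GL d ℚ_[ℓ]) : Prop :=
  (∀ Γ : Subgroup S.G, Γ ≤ S.geo → Γ.relIndex S.geo ≠ 0 → ∀ f : MvPolynomial (d × d) ℚ_[ℓ],
    (∀ γ ∈ Γ, pev (ρ γ : Matrix d d ℚ_[ℓ]) f = 0) → ∀ u ∈ U, pev u (MvPolynomial.map ι f) = 0) ∧
  ∃ Γ : Subgroup S.G, Γ ≤ S.geo ∧ Γ.relIndex S.geo ≠ 0 ∧ ∀ γ ∈ Γ,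
    ∀ I : Set (MvPolynomial (d × d) ℚ), IsAlgSubgroup I → U ⊆ zeros I ℂ →
      (ρ γ : Matrix d d ℚ_[ℓ]) ∈ zeros I ℚ_[ℓ]

end geo

/-- The final statement. -/
def PropDStmt : Prop :=
  ∀ (d e : Type) [Fintype d] [DecidableEq d] [Fintype e] [DecidableEq e] (F : Family (d ⊕ e))
    (w : ℕ) (lev : d ⊕ e → ℕ), 1 ≤ w →
    ∃ (C : ℕ) (R1 : ℕ → ℕ → ℕ → ℝ), ∀ P : Matrix (d ⊕ e) (d ⊕ e) ℂ, IsUnit P.det → F.IntM P →
      FixedPartB F lev P w → BlkD (Uni (F.Mo P)) →
      ∃ Ex : Set ℂ,
        (∀ (m A K : ℕ), ∀ x ∈ Pts m A, R1 m A K ≤ ‖x‖ →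
          Nat.card {κ : ℕ // κ < K ∧ x - κ ∈ Ex} ≤ C) ∧
        (∀ (k : Type) [Field k] [NumberField k] (σ : k →+* ℂ), HIK.DZ k {a : 𝓞 k | σ a ∈ Ex}) ∧
        (∀ x : ℂ, x ∉ Ex → ∀ W : ℕ → Submodule ℂ (d → ℂ), FibX F lev P w x W →
          ∀ (y : ℂ) (W₀ : ℕ → Submodule ℂ (d → ℂ)), FibY F lev P w y W₀ →
          ∀ (K : Type u) [Field K] [CharZero K],
            mtGroup w W K = GenU (Fst (Uni (F.Mo P))) w W₀ K) ∧
        ∀ (S : Curve) (ρ : (ℓ : ℕ) → [Fact ℓ.Prime] → S.G →* GL d ℚ_[ℓ]),
          (∀ (ℓ : ℕ) [Fact ℓ.Prime], Continuous (ρ ℓ)) →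
          ∀ (k : Type) [Field k] [NumberField k] (σ : k →+* ℂ),
            ∃ (T : Set (𝓞 k)) (N : ℕ → ℕ), HIK.DZ k T ∧
              ∀ (ℓ : ℕ) [Fact ℓ.Prime] (ι : ℚ_[ℓ] →+* ℂ), S.Geo (Fst (Uni (F.Mo P))) ι (ρ ℓ) →
              ∀ (π₀ : Place) (ρ₀ : S.R π₀ →* GL d ℚ_[ℓ]), S.Spec (ρ ℓ) π₀ ρ₀ →
              ∀ a : 𝓞 k, a ∉ T → (N ℓ : ℝ) ≤ house (a : k) →
              ∀ (ψ : k →+* AlgebraicClosure ℚ) (π : Place), π.t = ψ a →
              ∀ ρa : S.R π →* GL d ℚ_[ℓ], S.Spec (ρ ℓ) π ρa →
                (∀ (K : Type u) [Field K] [CharZero K] [Algebra ℚ_[ℓ] K],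
                  monodromy ρa K = GenR (Fst (Uni (F.Mo P))) ι ρ₀ K) ∧
                ∀ (ε : AlgebraicClosure ℚ →+* ℂ) (W₀ : ℕ → Submodule ℂ (d → ℂ)),
                  FibY F lev P w (ε π₀.t) W₀ →
                  (∀ (K : Type) [Field K] [CharZero K] [Algebra ℚ_[ℓ] K],
                    monodromy ρ₀ K = mtGroup w W₀ K) →
                  ∀ W : ℕ → Submodule ℂ (d → ℂ), FibX F lev P w (σ a) W →
                    ∀ (K : Type u) [Field K] [CharZero K] [Algebra ℚ_[ℓ] K],
                      monodromy ρa K = mtGroup w W K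

end Pool.Agent.MTPN
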