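import Pool.Agent.MTPN.FinalD
import Pool.Agent.HUK.Few

/-! MTPN: the final statement for families over curves, uniform over all number fields. -/

set_option autoImplicit false

namespace Pool.Agent.MTPN

open Matrix Polynomial NumberField Pool.Agent.MT100 Pool.Agent.MT100G Pool.Agent.MT100A
  Pool.Agent.MT100D Pool.Agent.Helper78_MT Pool.Agent.MTL Pool.Agent.MTN

universe u

/-- The final statement, uniform over all number fields. -/
def PropUStmt : Prop :=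
  ∀ (d e : Type) [Fintype d] [DecidableEq d] [Fintype e] [DecidableEq e] (F : Family (d ⊕ e))
    (w : ℕ) (lev : d ⊕ e → ℕ), 1 ≤ w →
    ∃ (C : ℕ) (α : ℕ → ℕ → ℕ), ∀ P : Matrix (d ⊕ e) (d ⊕ e) ℂ, IsUnit P.det → F.IntM P →
      FixedPartB F lev P w → BlkD (Uni (F.Mo P)) →
      ∃ Ex : Set ℂ,
        (∀ (m A K : ℕ), ∀ x ∈ Pts m A, ((C : ℝ) * (K + 1)) ^ α m A ≤ ‖x‖ →
          Nat.card {κ : ℕ // κ < K ∧ x - κ ∈ Ex} ≤ C) ∧
        HUK.Few Ex ∧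
        (∀ x : ℂ, x ∉ Ex → ∀ W : ℕ → Submodule ℂ (d → ℂ), FibX F lev P w x W →
          ∀ (y : ℂ) (W₀ : ℕ → Submodule ℂ (d → ℂ)), FibY F lev P w y W₀ →
          ∀ (K : Type u) [Field K] [CharZero K],
            mtGroup w W K = GenU (Fst (Uni (F.Mo P))) w W₀ K) ∧
        ∀ (S : Curve) (ρ : (ℓ : ℕ) → [Fact ℓ.Prime] → S.G →* GL d ℚ_[ℓ]),
          (∀ (ℓ : ℕ) [Fact ℓ.Prime], Continuous (ρ ℓ)) →
          ∃ (T : Set (AlgebraicClosure ℚ)) (N : ℕ → ℕ), HUK.Few T ∧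
            ∀ (ℓ : ℕ) [Fact ℓ.Prime] (ι : ℚ_[ℓ] →+* ℂ), S.Geo (Fst (Uni (F.Mo P))) ι (ρ ℓ) →
            ∀ (π₀ : Place) (ρ₀ : S.R π₀ →* GL d ℚ_[ℓ]), S.Spec (ρ ℓ) π₀ ρ₀ →
            ∀ π : Place, π.t ∉ T → (∀ m : ℕ, π.t ∉ HUK.Ap (AlgebraicClosure ℚ) m (N ℓ)) →
            ∀ ρa : S.R π →* GL d ℚ_[ℓ], S.Spec (ρ ℓ) π ρa →
              (∀ (K : Type u) [Field K] [CharZero K] [Algebra ℚ_[ℓ] K],
                monodromy ρa K = GenR (Fst (Uni (F.Mo P))) ι ρ₀ K) ∧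
              ∀ (ε₀ : AlgebraicClosure ℚ →+* ℂ) (W₀ : ℕ → Submodule ℂ (d → ℂ)),
                FibY F lev P w (ε₀ π₀.t) W₀ →
                (∀ (K : Type) [Field K] [CharZero K] [Algebra ℚ_[ℓ] K],
                  monodromy ρ₀ K = mtGroup w W₀ K) →
                ∀ ε : AlgebraicClosure ℚ →+* ℂ, ε π.t ∉ Ex →
                ∀ W : ℕ → Submodule ℂ (d → ℂ), FibX F lev P w (ε π.t) W →
                  ∀ (K : Type u) [Field K] [CharZero K] [Algebra ℚ_[ℓ] K],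
                    monodromy ρa K = mtGroup w W K

end Pool.Agent.MTPN
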