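import Pool.Agent.MTPN.Defs
import Pool.Agent.Helper34_MTA.FinC
import Pool.Agent.Helper97_MTD.Ladm

/-! Statements of the modules of MTPN (propagation from one fibre). -/

set_option autoImplicit false

namespace Pool.Agent.MTPN

open Matrix Polynomial Pool.Agent.MT100 Pool.Agent.MT100G Pool.Agent.MT100A Pool.Agent.MT100D
  Pool.Agent.Helper78_MT Pool.Agent.MTL
open Pool.Agent.MT100A.H34 (Hdg)
open Pool.Agent.Helper46_MT (Proj Phi)

universe u

/-! ### Hodge side -/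

/-- LIG: the second Hodge structure has its Deligne torus in the group generated by the torus of the
first one and the unipotents (Helper34_MTA/Lie3 `lie2` with `GenM M w V` in place of `mtGroup w V`; the
tensors `tt E Y c` and `zt E Q` are invariant under the unipotents, which are in `zeros I`) -/
def LigStmt : Prop :=
  ∀ (d : Type) [Fintype d] [DecidableEq d] (w : ℕ) (E E' : Matrix d d ℚ)
    (V V' : ℕ → Submodule ℂ (d → ℂ)) (M : Set (Matrix d d ℂ)), 1 ≤ w → PolHodge w E V →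
    PolHodge w E' V' →
    (∀ u ∈ Uni M, uᵀ * E.map (algebraMap ℚ ℂ) * u = E.map (algebraMap ℚ ℂ)) →
    (∀ t : (Fin 4 → d) → ℚ,
      (∀ u ∈ Uni M, tA (fun β => (t β : ℂ)) u = fun β => (t β : ℂ)) → Hdg w V t → Hdg w V' t) →
    (∀ Q : Matrix d d ℚ,
      (∀ u ∈ Uni M, u * Q.map (algebraMap ℚ ℂ) = Q.map (algebraMap ℚ ℂ) * u) →
      (∀ p, ∀ x ∈ V p, Q.map (algebraMap ℚ ℂ) *ᵥ x ∈ V p) →
      (∀ p, ∀ x ∈ V' p, Q.map (algebraMap ℚ ℂ) *ᵥ x ∈ V' p) →
      ∀ π π' : ℕ → Matrix d d ℂ, Proj w E π → Proj w E π' → (∀ p x, π p *ᵥ x ∈ V p) →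
      (∀ p x, π' p *ᵥ x ∈ V' p) → (∀ p, ∀ x ∈ V p, π p *ᵥ x = x) →
      (∀ p, ∀ x ∈ V' p, π' p *ᵥ x = x) →
      (Q.map (algebraMap ℚ ℂ) * Phi w π).trace = (Q.map (algebraMap ℚ ℂ) * Phi w π').trace) →
    hodgeTorus w V' ⊆ GenM M w V ℂ

/-- BRA: the values of the branches are invertible -/
def BraStmt : Prop :=
  ∀ (d : Type) [Fintype d] [DecidableEq d] (F : Family d) (x : ℂ) (Z : Matrix d d ℂ),
    Branch F x Z → IsUnit Z.det

open Classical in
/-- TRB: the trace of `Q` on the subspace spanned by the periods with index in `A` is the same for all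
the branches, if the subspace is stable for all of them -/
def TrbStmt : Prop :=
  ∀ (d : Type) [Fintype d] [DecidableEq d] (F : Family d) (P : Matrix d d ℂ), IsUnit P.det →
    ∀ (A : Set d) (Q : Matrix d d ℂ),
    (∀ (x : ℂ) (Z : Matrix d d ℂ), Branch F x Z → ∀ a ∈ A,
      Q *ᵥ (P *ᵥ Z a) ∈ Submodule.span ℂ ((fun a => P *ᵥ Z a) '' A)) →
    ∃ c : ℂ, ∀ (x : ℂ) (Z : Matrix d d ℂ), Branch F x Z → ∀ N : Matrix A A ℂ,
      (∀ a : A, Q *ᵥ (P *ᵥ Z a) = ∑ b : A, N b a • (P *ᵥ Z b)) → N.trace = c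

/-- TSG: the Deligne torus of every fibre is in the group generated by the unipotents and the torus of
one fibre -/
def TsgStmt : Prop :=
  ∀ (d : Type) [Fintype d] [DecidableEq d] (F : Family d) (P : Matrix d d ℂ) (w : ℕ) (lev : d → ℕ),
    IsUnit P.det → 1 ≤ w → FixedPartB F lev P w →
    ∀ (x y : ℂ) (Z Z' : Matrix d d ℂ), Branch F x Z → Branch F y Z' →
    ∀ (E E' : Matrix d d ℚ) (V V' : ℕ → Submodule ℂ (d → ℂ)), PolHodge w E V → F.InvM P E →
    FilAt lev P Z V → PolHodge w E' V' → FilAt lev P Z' V' →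
    hodgeTorus w V' ⊆ GenM (F.Mo P) w V ℂ

/-- GEQ: the generic Mumford-Tate group computed from two fibres -/
def GeqStmt : Prop :=
  ∀ (d : Type) [Fintype d] [DecidableEq d] (F : Family d) (P : Matrix d d ℂ) (w : ℕ) (lev : d → ℕ),
    IsUnit P.det → 1 ≤ w → FixedPartB F lev P w →
    ∀ (x y : ℂ) (Z Z' : Matrix d d ℂ), Branch F x Z → Branch F y Z' →
    ∀ (E E' : Matrix d d ℚ) (V V' : ℕ → Submodule ℂ (d → ℂ)), PolHodge w E V → F.InvM P E →
    FilAt lev P Z V → PolHodge w E' V' → F.InvM P E' → FilAt lev P Z' V' →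
    ∀ (K : Type u) [Field K] [CharZero K], GenM (F.Mo P) w V K = GenM (F.Mo P) w V' K

/-- BRY: near infinity the fundamental matrix itself is a branch -/
def BryStmt : Prop :=
  ∀ (d : Type) [Fintype d] [DecidableEq d] (F : Family d), ∃ R : ℝ, ∀ x : ℂ, R < ‖x‖ →
    Branch F x (F.Y x)

/-! ### Galois side -/

/-- The representation `ρ0` of the subgroup `H0` of the Galois group of `ℚ`, whose elements fix `a`, is the
specialisation of `ρ` at a place with `t = a`. -/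
def SpecH {G : Type*} [Group G] (ρ : GT →* G) (a : AlgebraicClosure ℚ) (H0 : Subgroup GQ)
    (ρ0 : H0 →* G) : Prop :=
  (∀ g ∈ H0, g a = a) ∧
  ∃ π : BB →+* AlgebraicClosure ℚ, π (algebraMap ℚ[X] BB X) = a ∧
    ∀ (σ : GT) (g : H0), (∀ b : BB, π (σ • b) = (g : GQ) (π b)) → ρ0 g = ρ σ

/-- NOE: a subgroup of finite index is mapped into the identity component -/
def NoeStmt : Prop :=
  ∀ (d : Type) [Fintype d] [DecidableEq d] (ℓ : ℕ) [Fact ℓ.Prime] (Γ : Type) [Group Γ]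
    (ρ : Γ →* GL d ℚ_[ℓ]), ∃ H : Subgroup Γ, H.FiniteIndex ∧
      ∀ γ ∈ H, (ρ γ : Matrix d d ℚ_[ℓ]) ∈ monodromy ρ ℚ_[ℓ]

/-- IDX: index in a group with a normal subgroup -/
def IdxStmt : Prop :=
  ∀ (G : Type) [Group G] (N X : Subgroup G), N.Normal → (X.subgroupOf N).FiniteIndex →
    (X ⊔ N).FiniteIndex → X.FiniteIndex

/-- DEA: the homomorphism `π` is surjective and every element of the Galois group of `ℚ` which fixes `a`
is induced by an element of the Galois group of `ℚ(t)` (row DEK of HIK) -/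
def DeaStmt : Prop :=
  ∀ (a : AlgebraicClosure ℚ) (π : BB →+* AlgebraicClosure ℚ), π (algebraMap ℚ[X] BB X) = a →
    Function.Surjective π ∧
    ∀ τ : GQ, τ a = a → ∃ σ : GT, ∀ b : BB, π (σ • b) = τ (π b)

/-- GNO: the geometric Galois group is normal -/
def GnoStmt : Prop := Ggeo.Normal

/-- GEO: a subgroup of the Galois group of `ℚ(t)` which contains the geometric Galois group and the
elements which induce the elements of a subgroup of finite index of the Galois group of `ℚ` has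
finite index -/
def GeoStmt : Prop :=
  ∀ (a : AlgebraicClosure ℚ) (π : BB →+* AlgebraicClosure ℚ), π (algebraMap ℚ[X] BB X) = a →
    ∀ H : Subgroup GQ, H.FiniteIndex → (∀ g ∈ H, g a = a) → ∀ X : Subgroup GT, Ggeo ≤ X →
    (∀ (σ : GT), ∀ g ∈ H, (∀ b : BB, π (σ • b) = g (π b)) → σ ∈ X) → X.FiniteIndex

/-- DFI: the elements induced by the elements of a subgroup of finite index -/
def DfiStmt : Prop :=
  ∀ (a : AlgebraicClosure ℚ) (π : BB →+* AlgebraicClosure ℚ), π (algebraMap ℚ[X] BB X) = a →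
    ∀ H0 : Subgroup GQ, (∀ g ∈ H0, g a = a) → ∀ Γ' : Subgroup GT, Γ'.FiniteIndex →
    ∃ H : Subgroup H0, H.FiniteIndex ∧ ∀ g ∈ H, ∃ σ ∈ Γ', ∀ b : BB, π (σ • b) = ((g : H0) : GQ) (π b)

/-- MOE: if the Mumford-Tate conjecture holds at one fibre, the connected monodromy group of the
representation of the Galois group of `ℚ(t)` is the group generated by the unipotents and the
Mumford-Tate group of this fibre -/
def MoeStmt : Prop :=
  ∀ (d : Type) [Fintype d] [DecidableEq d] (M : Set (Matrix d d ℂ)),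
    (∀ τ : ℂ ≃+* ℂ, ∀ γ ∈ M, γ.map τ = γ) →
    ∀ (ℓ : ℕ) [Fact ℓ.Prime] (ι : ℚ_[ℓ] →+* ℂ) (ρ : GT →* GL d ℚ_[ℓ]), GeoC M ι ρ →
    ∀ (w : ℕ) (V : ℕ → Submodule ℂ (d → ℂ)) (a : AlgebraicClosure ℚ) (H0 : Subgroup GQ)
      (ρ0 : H0 →* GL d ℚ_[ℓ]), H0.FiniteIndex → SpecH ρ a H0 ρ0 →
    (∀ (K : Type) [Field K] [CharZero K] [Algebra ℚ_[ℓ] K], monodromy ρ0 K = mtGroup w V K) →
    ∀ (K : Type u) [Field K] [CharZero K] [Algebra ℚ_[ℓ] K], monodromy ρ K = GenM M w V K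

/-- MOB: the connected monodromy group of the representation of the Galois group of `ℚ(t)` is the group
generated by the unipotents and the connected monodromy group of any specialisation -/
def MobStmt : Prop :=
  ∀ (d : Type) [Fintype d] [DecidableEq d] (M : Set (Matrix d d ℂ)),
    (∀ τ : ℂ ≃+* ℂ, ∀ γ ∈ M, γ.map τ = γ) →
    ∀ (ℓ : ℕ) [Fact ℓ.Prime] (ι : ℚ_[ℓ] →+* ℂ) (ρ : GT →* GL d ℚ_[ℓ]), GeoC M ι ρ →
    ∀ (a : AlgebraicClosure ℚ) (H0 : Subgroup GQ) (ρ0 : H0 →* GL d ℚ_[ℓ]), H0.FiniteIndex →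
    SpecH ρ a H0 ρ0 →
    ∀ (K : Type u) [Field K] [CharZero K] [Algebra ℚ_[ℓ] K], monodromy ρ K = GenL M ι ρ0 K

end Pool.Agent.MTPN
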